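import Pool.Agent.Lib.MP_799861_al.DimInq

/-!
# MP_799861_al: the dimension inequality fails for modules of finite projective dimension

A refinement of the example of `Pool.Agent.S02000`.
-/

set_option autoImplicit false

open IsLocalRing CategoryTheory MvPolynomial
open Pool.Agent.Lib.MP_799861_al

namespace Pool.Agent.Results.MP_799861_al.DimensionInequality

theorem glue2 {A : Type} [CommRing A] [IsNoetherianRing A] (m q : Ideal A) [hm : m.IsPrime]
    [hq : q.IsPrime] (hqm : q ≤ m) (z : A) (hzm : z ∈ m)
    (N : Type) [AddCommGroup N] [Module A N] [Module.Finite A N]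
    (hpd : HasProjectiveDimensionLT (ModuleCat.of A N) 4)
    (p : Fin 4 → PrimeSpectrum A) (hp : StrictMono p) (hle : (p 3).asIdeal ≤ m)
    (hz : z ∈ (p 0).asIdeal)
    (gens : Set A) (hgen : m = Ideal.span gens)
    (hnil : ∀ g ∈ gens, ∃ k : ℕ, ∀ n : N, ∃ n' : N, g ^ k • n = z • n')
    (n0 : N) (hn0 : ∀ a : A, a • n0 = 0 → a ∈ q)
    (a b : A) (ha : a ∈ q) (hb : b ∈ q)
    (hmin : ∀ P : Ideal A, P.IsPrime → a ∈ P → b ∈ P → P ≤ q → q ≤ P)
    (hzq : z ∉ q) (hdim : ringKrullDim A ≤ 3) :
    ∃ (R : Type) (_ : CommRing R) (_ : IsNoetherianRing R) (_ : IsLocalRing R)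
      (M N : Type) (_ : AddCommGroup M) (_ : Module R M) (_ : AddCommGroup N) (_ : Module R N),
      Module.Finite R M ∧ Module.Finite R N ∧ Nontrivial M ∧ Nontrivial N ∧
      HasProjectiveDimensionLE (ModuleCat.of R N) 3 ∧
      IsFiniteLength R (TensorProduct R M N) ∧
      ringKrullDim R = 3 ∧ ringKrullDim (R ⧸ Module.annihilator R M) = 3 ∧
      1 ≤ ringKrullDim (R ⧸ Module.annihilator R N) ∧
      ∀ rs : List R, (∀ r ∈ rs, r ∈ Module.annihilator R N) →
        RingTheory.Sequence.IsRegular R rs → rs.length ≤ 2 := by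
  have hnoeth : IsNoetherianRing (Localization.AtPrime m) :=
    IsLocalization.isNoetherianRing m.primeCompl (Localization.AtPrime m) inferInstance
  have hdisj : Disjoint (m.primeCompl : Set A) q := by
    rw [Set.disjoint_left]
    intro t ht htq
    exact ht (hqm htq)
  have hQ : (q.map (algebraMap A (Localization.AtPrime m))).IsPrime :=
    IsLocalization.isPrime_of_isPrime_disjoint m.primeCompl (Localization.AtPrime m) q hq hdisj
  have hQq : (q.map (algebraMap A (Localization.AtPrime m))).under A = q :=
    IsLocalization.under_map_of_isPrime_disjoint m.primeCompl (Localization.AtPrime m) hq hdisj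
  have hann := ann_le m q hqm N n0 hn0
  have hfin : Module.Finite (Localization.AtPrime m) (LocalizedModule m.primeCompl N) :=
    Module.Finite.of_isLocalizedModule m.primeCompl (LocalizedModule.mkLinearMap m.primeCompl N)
  have hzmax : algebraMap A (Localization.AtPrime m) z ∈ maximalIdeal (Localization.AtPrime m) :=
    (IsLocalization.AtPrime.to_map_mem_maximal_iff (Localization.AtPrime m) m z).mpr hzm
  have hne : Ideal.span {algebraMap A (Localization.AtPrime m) z} ≠ ⊤ := by
    intro h
    have h1 : (1 : Localization.AtPrime m) ∈ maximalIdeal (Localization.AtPrime m) :=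
      (Ideal.span_singleton_le_iff_mem _).mpr hzmax (h ▸ Submodule.mem_top)
    exact (Ideal.ne_top_iff_one _).mp (maximalIdeal.isMaximal _).ne_top h1
  have hdimR : ringKrullDim (Localization.AtPrime m) ≤ 3 := by
    rw [IsLocalization.AtPrime.ringKrullDim_eq_height m (Localization.AtPrime m)]
    exact (Ideal.height_le_ringKrullDim_of_ne_top hm.ne_top).trans hdim
  have h3 := three_le_dim m z p hp hle hz
  have hM := (ringKrullDim_quotient_le
    (Ideal.span {algebraMap A (Localization.AtPrime m) z}))
  refine ⟨Localization.AtPrime m, inferInstance, hnoeth, inferInstance,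
    Localization.AtPrime m ⧸ Ideal.span {algebraMap A (Localization.AtPrime m) z},
    LocalizedModule m.primeCompl N, inferInstance, inferInstance, inferInstance, inferInstance,
    inferInstance, hfin, ?_, ?_, ?_, ?_, ?_, ?_, ?_, ?_⟩
  · exact Ideal.Quotient.nontrivial_iff.mpr hne
  · by_contra hcon
    rw [not_nontrivial_iff_subsingleton] at hcon
    have h1 : (1 : Localization.AtPrime m) ∈ Module.annihilator (Localization.AtPrime m)
        (LocalizedModule m.primeCompl N) := by
      rw [Module.mem_annihilator]
      intro t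
      exact Subsingleton.elim _ _
    exact (Ideal.ne_top_iff_one _).mp hQ.ne_top (hann 1 h1)
  · exact pd_localized m.primeCompl N 3 hpd
  · refine isFiniteLength_of_radical _ ?_
    rw [← Localization.AtPrime.map_eq_maximalIdeal, Ideal.map_le_iff_le_comap]
    refine hgen.le.trans (Ideal.span_le.mpr ?_)
    intro g hg
    obtain ⟨k, hk⟩ := hnil g hg
    refine Ideal.mem_comap.mpr ⟨k, ?_⟩
    rw [← map_pow]
    exact mem_ann_tensor m z (g ^ k) N hk
  · exact le_antisymm hdimR (h3.trans hM)
  · rw [Ideal.annihilator_quotient]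
    exact le_antisymm (hM.trans hdimR) h3
  · rw [ringKrullDim_quotient]
    have hnm : Module.annihilator (Localization.AtPrime m) (LocalizedModule m.primeCompl N) ≤
        q.map (algebraMap A (Localization.AtPrime m)) := hann
    have hQm : q.map (algebraMap A (Localization.AtPrime m)) ≤
        maximalIdeal (Localization.AtPrime m) := le_maximalIdeal hQ.ne_top
    have hlt : q.map (algebraMap A (Localization.AtPrime m)) ≠
        maximalIdeal (Localization.AtPrime m) := by
      intro h
      apply hzq
      rw [← hQq, h]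
      exact hzmax
    let s : LTSeries (PrimeSpectrum.zeroLocus (R := Localization.AtPrime m)
        ((Module.annihilator (Localization.AtPrime m) (LocalizedModule m.primeCompl N) :
          Ideal (Localization.AtPrime m)) : Set (Localization.AtPrime m))) :=
      LTSeries.mk 1 (fun i => if i = 0 then ⟨⟨q.map (algebraMap A (Localization.AtPrime m)), hQ⟩,
          hnm⟩ else ⟨closedPoint (Localization.AtPrime m), hnm.trans hQm⟩) (by
        rw [Fin.strictMono_iff_lt_succ]
        intro i
        fin_cases i
        exact lt_of_le_of_ne hQm (fun h => hlt (congrArg (fun t => t.1.asIdeal) h)))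
    exact Order.LTSeries.length_le_krullDim s
  · intro rs hrs hreg
    have h4 := length_le_height _ rs hreg.1 (fun r hr => hann r (hrs r hr))
    have h5 : (q.map (algebraMap A (Localization.AtPrime m))).height = q.height := by
      rw [← IsLocalization.height_under m.primeCompl
        (q.map (algebraMap A (Localization.AtPrime m))), hQq]
    have h6 := height_le_two q a b ha hb hmin
    rw [← h5] at h6
    have h7 : (rs.length : ℕ∞) ≤ 2 := h4.trans h6
    exact_mod_cast h7

theorem result :
    ∃ (R : Type) (_ : CommRing R) (_ : IsNoetherianRing R) (_ : IsLocalRing R)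
      (M N : Type) (_ : AddCommGroup M) (_ : Module R M) (_ : AddCommGroup N) (_ : Module R N),
      Module.Finite R M ∧ Module.Finite R N ∧ Nontrivial M ∧ Nontrivial N ∧
      HasProjectiveDimensionLE (ModuleCat.of R N) 3 ∧
      IsFiniteLength R (TensorProduct R M N) ∧
      ringKrullDim R = 3 ∧ ringKrullDim (R ⧸ Module.annihilator R M) = 3 ∧
      1 ≤ ringKrullDim (R ⧸ Module.annihilator R N) ∧
      ∀ rs : List R, (∀ r ∈ rs, r ∈ Module.annihilator R N) →
        RingTheory.Sequence.IsRegular R rs → rs.length ≤ 2 := by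
  refine glue2 mm qq qq_le (mk (X 4)) f3_4 (NN facts_AA) (pd_NN facts_AA) pr pr_strictMono
    le_rfl ?_ {mk (X 0), mk (X 1), mk (X 2), mk (X 3), mk (X 4)} mm_eq ?_
    (piN facts_AA (pi1 _ _ _ _ _ 1, pi2 _ _ _ _ 0)) ?_ (mk (X 1)) (mk (X 3)) gq_1 gq_3 qq_min
    X4_not_mem dim_AA_le
  · exact g0_4
  · intro g hg
    simp only [Set.mem_insert_iff, Set.mem_singleton_iff] at hg
    rcases hg with rfl | rfl | rfl | rfl | rfl
    · exact ⟨3, nil_x facts_AA⟩
    · exact ⟨3, nil_y facts_AA⟩
    · exact ⟨3, nil_u facts_AA⟩
    · exact ⟨3, nil_v facts_AA⟩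
    · exact ⟨1, fun n => ⟨n, by rw [pow_one]⟩⟩
  · intro a ha
    obtain ⟨w, s, t, h⟩ := n0_spec facts_AA a ha
    show fq a = 0
    obtain ⟨w3, w1, w2⟩ := w
    rw [h, m1_apply]
    have e0 : fq (mk (X 0)) = 0 := gq_0
    have e1 : fq (mk (X 1)) = 0 := gq_1
    have e2 : fq (mk (X 2)) = 0 := gq_2
    have e3 : fq (mk (X 3)) = 0 := gq_3
    simp only [map_add, map_mul, map_sub, map_pow]
    rw [e0, e1, e2, e3]
    ring


end Pool.Agent.Results.MP_799861_al.DimensionInequality
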